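import Pool.Agent.P.MP_5517c4_pr.Cca.Rg
import Pool.Agent.P.MP_5517c4_pr.Cca.A33.Ce

set_option autoImplicit false
set_option maxRecDepth 100000
set_option maxHeartbeats 0

namespace Pool.Agent.P.MP_5517c4_pr.Cca.A33

theorem k0 : Rg ce.ckT 0 24 :=
  (rg 0 3 (by decide +kernel)).app <|
  (rg 3 6 (by decide +kernel)).app <|
  (rg 6 9 (by decide +kernel)).app <|
  (rg 9 11 (by decide +kernel)).app <|
  (rg 11 13 (by decide +kernel)).app <|
  (rg 13 16 (by decide +kernel)).app <|
  (rg 16 19 (by decide +kernel)).app <|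
  (rg 19 21 (by decide +kernel)).app <|
  rg 21 24 (by decide +kernel)

end Pool.Agent.P.MP_5517c4_pr.Cca.A33
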