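import Pool.Agent.P.MP_5517c4_pr.Cca.Rg
import Pool.Agent.P.MP_5517c4_pr.Cca.A33.Ce

set_option autoImplicit false
set_option maxRecDepth 100000
set_option maxHeartbeats 0

namespace Pool.Agent.P.MP_5517c4_pr.Cca.A33

theorem k1 : Rg ce.ckT 24 65 :=
  (rg 24 27 (by decide +kernel)).app <|
  (rg 27 33 (by decide +kernel)).app <|
  (rg 33 36 (by decide +kernel)).app <|
  (rg 36 39 (by decide +kernel)).app <|
  (rg 39 43 (by decide +kernel)).app <|
  (rg 43 49 (by decide +kernel)).app <|
  (rg 49 53 (by decide +kernel)).app <|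
  rg 53 65 (by decide +kernel)

end Pool.Agent.P.MP_5517c4_pr.Cca.A33
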