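import Pool.Agent.P.MP_5517c4_pr.Cca.Rg
import Pool.Agent.P.MP_5517c4_pr.Cca.A33.Ce

set_option autoImplicit false
set_option maxRecDepth 100000
set_option maxHeartbeats 0

namespace Pool.Agent.P.MP_5517c4_pr.Cca.A33

theorem k11 : Rg (ce.ckL (8 + 1)) 336 488 :=
  (rg 336 360 (by decide +kernel)).app <|
  (rg 360 384 (by decide +kernel)).app <|
  (rg 384 408 (by decide +kernel)).app <|
  (rg 408 424 (by decide +kernel)).app <|
  (rg 424 440 (by decide +kernel)).app <|
  (rg 440 456 (by decide +kernel)).app <|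
  (rg 456 472 (by decide +kernel)).app <|
  rg 472 488 (by decide +kernel)

end Pool.Agent.P.MP_5517c4_pr.Cca.A33
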