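import Pool.Agent.P.MP_5517c4_pr.Cca.Rg
import Pool.Agent.P.MP_5517c4_pr.Cca.A33.Ce

set_option autoImplicit false
set_option maxRecDepth 100000
set_option maxHeartbeats 0

namespace Pool.Agent.P.MP_5517c4_pr.Cca.A33

theorem k12 : Rg (ce.ckL (8 + 1)) 488 (2 ^ (8 + 1)) ∧
    Rg (ce.ckL (7 + 1)) 0 (2 ^ (7 + 1)) :=
  ⟨(rg 488 504 (by decide +kernel)).app <|
  rg 504 (2 ^ (8 + 1)) (by decide +kernel),
  (rg 0 48 (by decide +kernel)).app <|
  (rg 48 96 (by decide +kernel)).app <|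
  (rg 96 144 (by decide +kernel)).app <|
  (rg 144 192 (by decide +kernel)).app <|
  (rg 192 240 (by decide +kernel)).app <|
  rg 240 (2 ^ (7 + 1)) (by decide +kernel)⟩

end Pool.Agent.P.MP_5517c4_pr.Cca.A33
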