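import Pool.Agent.P.MP_5517c4_pr.Cca.Rg
import Pool.Agent.P.MP_5517c4_pr.Cca.A33.Ce

set_option autoImplicit false
set_option maxRecDepth 100000
set_option maxHeartbeats 0

namespace Pool.Agent.P.MP_5517c4_pr.Cca.A33

theorem k13 : Rg (ce.ckL (6 + 1)) 0 (2 ^ (6 + 1)) ∧
    Rg (ce.ckL (5 + 1)) 0 (2 ^ (5 + 1)) ∧
    Rg (ce.ckL (4 + 1)) 0 (2 ^ (4 + 1)) ∧
    Rg (ce.ckL (3 + 1)) 0 (2 ^ (3 + 1)) ∧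
    Rg (ce.ckL (2 + 1)) 0 (2 ^ (2 + 1)) ∧
    Rg (ce.ckL (1 + 1)) 0 (2 ^ (1 + 1)) ∧
    Rg (ce.ckL (0 + 1)) 0 (2 ^ (0 + 1)) :=
  ⟨(rg 0 120 (by decide +kernel)).app <|
  rg 120 (2 ^ (6 + 1)) (by decide +kernel),
  rg 0 (2 ^ (5 + 1)) (by decide +kernel),
  rg 0 (2 ^ (4 + 1)) (by decide +kernel),
  rg 0 (2 ^ (3 + 1)) (by decide +kernel),
  rg 0 (2 ^ (2 + 1)) (by decide +kernel),
  rg 0 (2 ^ (1 + 1)) (by decide +kernel),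
  rg 0 (2 ^ (0 + 1)) (by decide +kernel)⟩

end Pool.Agent.P.MP_5517c4_pr.Cca.A33
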