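import Pool.Agent.P.MP_5517c4_pr.Cca.Rg
import Pool.Agent.P.MP_5517c4_pr.Cca.A33.Ce

set_option autoImplicit false
set_option maxRecDepth 100000
set_option maxHeartbeats 0

namespace Pool.Agent.P.MP_5517c4_pr.Cca.A33

theorem k2 : Rg ce.ckT 65 105 :=
  (rg 65 68 (by decide +kernel)).app <|
  (rg 68 71 (by decide +kernel)).app <|
  (rg 71 75 (by decide +kernel)).app <|
  (rg 75 81 (by decide +kernel)).app <|
  (rg 81 85 (by decide +kernel)).app <|
  (rg 85 99 (by decide +kernel)).app <|
  rg 99 105 (by decide +kernel)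

end Pool.Agent.P.MP_5517c4_pr.Cca.A33
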