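import Pool.Agent.P.MP_5517c4_pr.Cca.Rg
import Pool.Agent.P.MP_5517c4_pr.Cca.A33.Ce

set_option autoImplicit false
set_option maxRecDepth 100000
set_option maxHeartbeats 0

namespace Pool.Agent.P.MP_5517c4_pr.Cca.A33

theorem k3 : Rg ce.ckT 105 192 :=
  (rg 105 130 (by decide +kernel)).app <|
  (rg 130 132 (by decide +kernel)).app <|
  (rg 132 135 (by decide +kernel)).app <|
  (rg 135 139 (by decide +kernel)).app <|
  (rg 139 145 (by decide +kernel)).app <|
  (rg 145 149 (by decide +kernel)).app <|
  (rg 149 162 (by decide +kernel)).app <|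
  rg 162 192 (by decide +kernel)

end Pool.Agent.P.MP_5517c4_pr.Cca.A33
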