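import Pool.Agent.P.MP_5517c4_pr.Cca.Rg
import Pool.Agent.P.MP_5517c4_pr.Cca.A33.Ce

set_option autoImplicit false
set_option maxRecDepth 100000
set_option maxHeartbeats 0

namespace Pool.Agent.P.MP_5517c4_pr.Cca.A33

theorem k4 : Rg ce.ckT 192 280 :=
  (rg 192 196 (by decide +kernel)).app <|
  (rg 196 256 (by decide +kernel)).app <|
  (rg 256 259 (by decide +kernel)).app <|
  (rg 259 261 (by decide +kernel)).app <|
  (rg 261 264 (by decide +kernel)).app <|
  (rg 264 268 (by decide +kernel)).app <|
  (rg 268 274 (by decide +kernel)).app <|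
  rg 274 280 (by decide +kernel)

end Pool.Agent.P.MP_5517c4_pr.Cca.A33
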