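import Pool.Agent.P.MP_5517c4_pr.Cca.Rg
import Pool.Agent.P.MP_5517c4_pr.Cca.A33.Ce

set_option autoImplicit false
set_option maxRecDepth 100000
set_option maxHeartbeats 0

namespace Pool.Agent.P.MP_5517c4_pr.Cca.A33

theorem k5 : Rg ce.ckT 280 521 :=
  (rg 280 291 (by decide +kernel)).app <|
  (rg 291 321 (by decide +kernel)).app <|
  (rg 321 384 (by decide +kernel)).app <|
  (rg 384 388 (by decide +kernel)).app <|
  (rg 388 400 (by decide +kernel)).app <|
  (rg 400 514 (by decide +kernel)).app <|
  (rg 514 517 (by decide +kernel)).app <|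
  rg 517 521 (by decide +kernel)

end Pool.Agent.P.MP_5517c4_pr.Cca.A33
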