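import Pool.Agent.P.MP_5517c4_pr.Cca.Rg
import Pool.Agent.P.MP_5517c4_pr.Cca.A33.Ce

set_option autoImplicit false
set_option maxRecDepth 100000
set_option maxHeartbeats 0

namespace Pool.Agent.P.MP_5517c4_pr.Cca.A33

theorem k8 : Rg ce.ckT 770 (2 ^ ce.T) ∧
    Rg (ce.ckL (8 + 1)) 0 48 :=
  ⟨(rg 770 775 (by decide +kernel)).app <|
  (rg 775 784 (by decide +kernel)).app <|
  (rg 784 803 (by decide +kernel)).app <|
  (rg 803 899 (by decide +kernel)).app <|
  rg 899 (2 ^ ce.T) (by decide +kernel),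
  (rg 0 16 (by decide +kernel)).app <|
  (rg 16 32 (by decide +kernel)).app <|
  rg 32 48 (by decide +kernel)⟩

end Pool.Agent.P.MP_5517c4_pr.Cca.A33
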