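import Pool.Agent.P.MP_5517c4_pr.Cca.Prob
import Pool.Agent.P.MP_5517c4_pr.Cca.A33.K0
import Pool.Agent.P.MP_5517c4_pr.Cca.A33.K1
import Pool.Agent.P.MP_5517c4_pr.Cca.A33.K2
import Pool.Agent.P.MP_5517c4_pr.Cca.A33.K3
import Pool.Agent.P.MP_5517c4_pr.Cca.A33.K4
import Pool.Agent.P.MP_5517c4_pr.Cca.A33.K5
import Pool.Agent.P.MP_5517c4_pr.Cca.A33.K6
import Pool.Agent.P.MP_5517c4_pr.Cca.A33.K7
import Pool.Agent.P.MP_5517c4_pr.Cca.A33.K8
import Pool.Agent.P.MP_5517c4_pr.Cca.A33.K9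
import Pool.Agent.P.MP_5517c4_pr.Cca.A33.K10
import Pool.Agent.P.MP_5517c4_pr.Cca.A33.K11
import Pool.Agent.P.MP_5517c4_pr.Cca.A33.K12
import Pool.Agent.P.MP_5517c4_pr.Cca.A33.K13

set_option autoImplicit false
set_option maxRecDepth 100000
set_option maxHeartbeats 0

namespace Pool.Agent.P.MP_5517c4_pr.Cca.A33

theorem gd : Gd ce (3 * 2 ^ 28) 7 where
  hκ := by decide +kernel
  hd := by decide +kernel
  hT := by decide +kernel
  hS := by decide +kernel
  hK := by decide +kernel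
  h0 := by decide +kernel
  hL := fun j hj => by
    have : j + 1 < 10 := hj
    have : j < 9 := by omega
    interval_cases j
    · exact fun x => (k13.2.2.2.2.2.2) x (Nat.zero_le _)
    · exact fun x => (k13.2.2.2.2.2.1) x (Nat.zero_le _)
    · exact fun x => (k13.2.2.2.2.1) x (Nat.zero_le _)
    · exact fun x => (k13.2.2.2.1) x (Nat.zero_le _)
    · exact fun x => (k13.2.2.1) x (Nat.zero_le _)
    · exact fun x => (k13.2.1) x (Nat.zero_le _)
    · exact fun x => (k13.1) x (Nat.zero_le _)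
    · exact fun x => (k12.2) x (Nat.zero_le _)
    · exact fun x => (k8.2.app (k9.app (k10.app (k11.app (k12.1))))) x (Nat.zero_le _)
  hC := fun x => (k0.app (k1.app (k2.app (k3.app (k4.app (k5.app (k6.app (k7.app (k8.1))))))))) x (Nat.zero_le _)

end Pool.Agent.P.MP_5517c4_pr.Cca.A33
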