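import Pool.Agent.P.MP_5517c4_pr.Cca.Rg
import Pool.Agent.P.MP_5517c4_pr.Cca.A33.Ce

set_option autoImplicit false
set_option maxRecDepth 100000
set_option maxHeartbeats 0

namespace Pool.Agent.P.MP_5517c4_pr.Cca.A33

theorem k9 : Rg (ce.ckL (8 + 1)) 48 192 :=
  (rg 48 64 (by decide +kernel)).app <|
  (rg 64 80 (by decide +kernel)).app <|
  (rg 80 104 (by decide +kernel)).app <|
  (rg 104 128 (by decide +kernel)).app <|
  (rg 128 144 (by decide +kernel)).app <|
  (rg 144 168 (by decide +kernel)).app <|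
  rg 168 192 (by decide +kernel)

end Pool.Agent.P.MP_5517c4_pr.Cca.A33
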